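import Pool.Agent.Run7.h876.GN.Gen

/-!
# First order estimates of the local means
-/

set_option autoImplicit false
set_option linter.unusedSectionVars false

namespace Run7.h876.GN

open NumberField IsDedekindDomain Finset Filter Topology
open Run7.h876.MM (nv kv two_le_nv nv_pos avg card_kv xv norm_xv instFieldKv instFintypeKv instDecKv
  norm_avg_le avg_sub')
open Run7.h876.EN
open Run7.h876.HY (one_le_nv)

section
variable {K : Type} [Field K] [NumberField K] {J : Type} [Fintype J] [DecidableEq J] (A : Loc K J)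

theorem avg_add_const {α : Type} [Fintype α] [Nonempty α] (f : α → ℂ) (c : ℂ) :
    avg Finset.univ (fun t => f t + c) = avg Finset.univ f + c := by
  have hcard : ((Finset.univ : Finset α).card : ℂ) ≠ 0 := by
    have : 0 < (Finset.univ : Finset α).card := Finset.card_pos.2 Finset.univ_nonempty
    exact_mod_cast this.ne'
  unfold avg
  rw [Finset.sum_add_distrib, Finset.sum_const, nsmul_eq_mul]
  field_simp

theorem avg_mul_const {α : Type} [Fintype α] (f : α → ℂ) (c : ℂ) :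
    avg Finset.univ (fun t => c * f t) = c * avg Finset.univ f := by
  unfold avg
  rw [← Finset.mul_sum]
  ring

/-- **First order majorant.** -/
theorem maj_first (e₀ : ℕ) (he : (e₀ : ℝ) ≤ A.h) (k : ℂ) (n : ℝ) (Bd : Set (HeightOneSpectrum (𝓞 K))) (hBd : Bd.Finite)
    {C : ℝ} (hC : 0 ≤ C) (δ : ℝ)
    (hE : ∀ v, v ∉ Bd → ‖avg Finset.univ (fun t => (A.a v t 0 : ℂ)) - ((n * (nv v : ℝ) ^ e₀ : ℝ) : ℂ)‖ ≤
      C * (nv v : ℝ) ^ (A.h - δ)) {σ₀ : ℝ} (h1 : A.h + 1 / 2 ≤ σ₀) (h2 : A.h + 1 - δ ≤ σ₀) :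
    Maj A (fun _ : Unit => e₀) (fun _ => 1) σ₀ k (fun _ => k * n) := by
  have hD := A.D_nonneg
  have hA : Adm A (fun _ : Unit => e₀) (fun _ => 1) σ₀ := by
    refine ⟨by linarith, fun _ => ⟨le_rfl, ?_⟩⟩
    push_cast
    linarith
  refine maj_of hA k _ Bd hBd fun σ hσ => ?_
  set y₀ : ℝ := 2 ^ (σ₀ - σ) with hy₀
  have hy₀1 : y₀ < 1 := y0_lt' hσ
  set w : ℝ := (1 - y₀)⁻¹ with hw
  have hw0 : 0 < w := inv_pos.2 (by linarith)
  set E : ℝ := EB A σ₀ σ k (fun _ : Unit => k * (n : ℂ)) with hE0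
  have hEn : 0 ≤ E := EB_nonneg hσ k _
  -- the constant
  set B : ℝ := ‖k‖ * A.D * w + ‖k * (n : ℂ)‖ * w with hB
  have hB0 : 0 ≤ B := by positivity
  have hEB : E = B := by
    rw [hE0, hB]
    unfold EB
    simp
    ring
  refine ⟨fun v => ‖k‖ * C * (nv v : ℝ) ^ (-(σ - A.h + δ)) +
    (B + B ^ 2 * Real.exp B) * (nv v : ℝ) ^ (-(2 * (σ - A.h))), ?_, ?_⟩
  · exact ((Pool.Agent.H921R2.TatePole.nm_summable (K := K) (x := σ - A.h + δ) (by linarith)).mul_left _).add
      ((Pool.Agent.H921R2.TatePole.nm_summable (K := K) (x := 2 * (σ - A.h)) (by linarith)).mul_left _)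
  · intro v hvB s hs
    have hnv := nv_pos v
    have h1nv := one_le_nv v
    set X := xv v s with hX
    set q : ℝ := ((nv v : ℕ) : ℝ) with hq
    have hQ : 0 ≤ q ^ A.h := by positivity
    set y : ℝ := q ^ A.h * ‖X‖ with hy
    have hyle : y ≤ y₀ := y_le' hA hσ v hs
    have hy0 : 0 ≤ y := by positivity
    have hyr : y ≤ q ^ (-(σ - A.h)) := by
      rw [hy, hq, hX, nvh_xv]
      exact Real.rpow_le_rpow_of_exponent_le h1nv (by linarith)
    have hy2 : y ^ 2 ≤ q ^ (-(2 * (σ - A.h))) := by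
      have := pow_le_pow_left₀ hy0 hyr 2
      refine this.trans (le_of_eq ?_)
      rw [← Real.rpow_natCast, ← Real.rpow_mul hnv.le]
      congr 1
      push_cast
      ring
    -- the zeta argument
    have hz : za (fun _ : Unit => e₀) (fun _ => 1) v s () = (q : ℂ) ^ e₀ * X := by
      unfold za
      rw [pow_one]
    have hqe : q ^ e₀ ≤ q ^ A.h := by
      rw [← Real.rpow_natCast]
      exact Real.rpow_le_rpow_of_exponent_le h1nv he
    have hzy : ‖(q : ℂ) ^ e₀ * X‖ ≤ y := by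
      rw [norm_mul, norm_pow, Complex.norm_real, Real.norm_of_nonneg hnv.le]
      exact mul_le_mul_of_nonneg_right hqe (norm_nonneg _)
    have hz1 : 1 * ‖(q : ℂ) ^ e₀ * X‖ ≤ y₀ := by rw [one_mul]; exact hzy.trans hyle
    have pt : ∀ t : J → kv v, ‖Complex.exp (ex A (fun _ : Unit => e₀) (fun _ => 1) k (fun _ => k * (n : ℂ)) v s t) -
        (k * X * (A.a v t 0 : ℂ) + (1 - k * X * ((n * q ^ e₀ : ℝ) : ℂ)))‖ ≤ (B + B ^ 2 * Real.exp B) * y ^ 2 := by
      intro t
      set z := ex A (fun _ : Unit => e₀) (fun _ => 1) k (fun _ => k * (n : ℂ)) v s t with hzdef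
      have hzE : ‖z‖ ≤ B := by rw [← hEB]; exact ex_le hA hσ k _ v hs t
      have hzval : z = k * ell (fun m => (A.a v t m : ℂ)) X - k * n * ell (fun _ => 1) ((q : ℂ) ^ e₀ * X) := by
        rw [hzdef]
        unfold ex
        rw [Fintype.sum_unique]
        have : (default : Unit) = () := rfl
        rw [this, hz]
      have k1 := ell_tail hD hQ (a_bound A v t) hyle hy₀1 1
      have k2 := ell_tail (a := fun _ => (1 : ℂ)) (D := 1) (Q := 1) zero_le_one zero_le_one one_bound hz1 hy₀1 1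
      have k3 := ell_le hD hQ (a_bound A v t) hyle hy₀1
      have k4 := ell_le (a := fun _ => (1 : ℂ)) (D := 1) (Q := 1) zero_le_one zero_le_one one_bound hz1 hy₀1
      simp only [Finset.sum_range_succ, Finset.sum_range_zero, zero_add, Nat.cast_zero, div_eq_mul_inv,
        ← hw, pow_one, one_mul, inv_one, mul_one] at k1 k2 k3 k4
      have e1 : z - (k * X * (A.a v t 0 : ℂ) - k * X * ((n * q ^ e₀ : ℝ) : ℂ)) =
          k * (ell (fun m => (A.a v t m : ℂ)) X - (A.a v t 0 : ℂ) * X) -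
          k * n * (ell (fun _ => 1) ((q : ℂ) ^ e₀ * X) - (q : ℂ) ^ e₀ * X) := by
        rw [hzval]
        push_cast
        ring
      have e2 : ‖z - (k * X * (A.a v t 0 : ℂ) - k * X * ((n * q ^ e₀ : ℝ) : ℂ))‖ ≤ B * y ^ 2 := by
        rw [e1]
        refine (norm_sub_le _ _).trans ?_
        rw [norm_mul, norm_mul]
        have f1 : ‖k‖ * ‖ell (fun m => (A.a v t m : ℂ)) X - (A.a v t 0 : ℂ) * X‖ ≤ ‖k‖ * (A.D * y ^ 2 * w) :=
          mul_le_mul_of_nonneg_left k1 (norm_nonneg _)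
        have f2 : ‖k * (n : ℂ)‖ * ‖ell (fun _ => 1) ((q : ℂ) ^ e₀ * X) - (q : ℂ) ^ e₀ * X‖ ≤ ‖k * (n : ℂ)‖ * (y ^ 2 * w) := by
          refine mul_le_mul_of_nonneg_left (k2.trans ?_) (norm_nonneg _)
          gcongr
        refine (add_le_add f1 f2).trans (le_of_eq ?_)
        rw [hB]; ring
      have e3 : ‖z‖ ≤ B * y := by
        rw [hzval]
        refine (norm_sub_le _ _).trans ?_
        rw [norm_mul, norm_mul]
        have f1 : ‖k‖ * ‖ell (fun m => (A.a v t m : ℂ)) X‖ ≤ ‖k‖ * (A.D * y * w) :=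
          mul_le_mul_of_nonneg_left k3 (norm_nonneg _)
        have f2 : ‖k * (n : ℂ)‖ * ‖ell (fun _ => 1) ((q : ℂ) ^ e₀ * X)‖ ≤ ‖k * (n : ℂ)‖ * (y * w) := by
          refine mul_le_mul_of_nonneg_left (k4.trans ?_) (norm_nonneg _)
          gcongr
        refine (add_le_add f1 f2).trans (le_of_eq ?_)
        rw [hB]; ring
      have e4 := Complex.norm_exp_sub_sum_le_norm_mul_exp z 2
      simp only [Finset.sum_range_succ, Finset.sum_range_zero, zero_add, pow_zero, Nat.factorial_zero, Nat.cast_one,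
        div_one, pow_one, Nat.factorial_one] at e4
      have e5 : ‖Complex.exp z - (1 + z)‖ ≤ B ^ 2 * Real.exp B * y ^ 2 := by
        refine e4.trans ?_
        have g1 : ‖z‖ ^ 2 ≤ (B * y) ^ 2 := pow_le_pow_left₀ (norm_nonneg _) e3 2
        have g2 : Real.exp ‖z‖ ≤ Real.exp B := Real.exp_le_exp.2 hzE
        calc ‖z‖ ^ 2 * Real.exp ‖z‖ ≤ (B * y) ^ 2 * Real.exp B := by gcongr
          _ = _ := by ring
      have e6 : Complex.exp z - (k * X * (A.a v t 0 : ℂ) + (1 - k * X * ((n * q ^ e₀ : ℝ) : ℂ))) =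
          (Complex.exp z - (1 + z)) + (z - (k * X * (A.a v t 0 : ℂ) - k * X * ((n * q ^ e₀ : ℝ) : ℂ))) := by ring
      rw [e6]
      refine (norm_add_le _ _).trans ((add_le_add e5 e2).trans (le_of_eq ?_))
      ring
    have hav : ‖hv A (fun _ : Unit => e₀) (fun _ => 1) k (fun _ => k * (n : ℂ)) v s -
        avg Finset.univ (fun t : J → kv v => k * X * (A.a v t 0 : ℂ) + (1 - k * X * ((n * q ^ e₀ : ℝ) : ℂ)))‖ ≤
        (B + B ^ 2 * Real.exp B) * y ^ 2 := by
      unfold Run7.h876.GN.hv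
      rw [avg_sub']
      exact norm_avg_le _ _ _ (by positivity) fun t _ => pt t
    have hav2 : avg Finset.univ (fun t : J → kv v => k * X * (A.a v t 0 : ℂ) + (1 - k * X * ((n * q ^ e₀ : ℝ) : ℂ))) - 1 =
        k * X * (avg Finset.univ (fun t : J → kv v => (A.a v t 0 : ℂ)) - ((n * q ^ e₀ : ℝ) : ℂ)) := by
      rw [avg_add_const, avg_mul_const]
      ring
    have hE' := hE v hvB
    rw [← hq] at hE'
    have e7 : ‖k * X * (avg Finset.univ (fun t : J → kv v => (A.a v t 0 : ℂ)) - ((n * q ^ e₀ : ℝ) : ℂ))‖ ≤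
        ‖k‖ * C * q ^ (-(σ - A.h + δ)) := by
      rw [norm_mul, norm_mul]
      have g1 : ‖X‖ ≤ q ^ (-σ) := by
        rw [hX, norm_xv]
        exact Real.rpow_le_rpow_of_exponent_le h1nv (by linarith)
      calc _ ≤ ‖k‖ * q ^ (-σ) * (C * q ^ (A.h - δ)) := by gcongr
        _ = ‖k‖ * C * (q ^ (-σ) * q ^ (A.h - δ)) := by ring
        _ = _ := by rw [← Real.rpow_add hnv]; congr 2; ring
    have e8 : hv A (fun _ : Unit => e₀) (fun _ => 1) k (fun _ => k * (n : ℂ)) v s - 1 =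
        (hv A (fun _ : Unit => e₀) (fun _ => 1) k (fun _ => k * (n : ℂ)) v s -
          avg Finset.univ (fun t : J → kv v => k * X * (A.a v t 0 : ℂ) + (1 - k * X * ((n * q ^ e₀ : ℝ) : ℂ)))) +
        (avg Finset.univ (fun t : J → kv v => k * X * (A.a v t 0 : ℂ) + (1 - k * X * ((n * q ^ e₀ : ℝ) : ℂ))) - 1) := by ring
    rw [e8]
    refine (norm_add_le _ _).trans ?_
    rw [hav2, add_comm]
    refine add_le_add e7 (hav.trans ?_)
    gcongr

end

end Run7.h876.GN
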