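import Pool.Agent.Run7.h876.HY.Cent

/-!
# The continuation of the moments of Euler products: the general mechanism
-/

set_option autoImplicit false
set_option linter.unusedSectionVars false

namespace Run7.h876.GN

open NumberField IsDedekindDomain Finset Filter Topology
open Run7.h876.MM (nv kv two_le_nv nv_pos avg card_kv xv norm_xv instFieldKv instFintypeKv instDecKv
  norm_avg_le tail_bound tail_small mult_of tprod_ne hasProd_zeta xv_real SZ mem_SZ tprod_zpow')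
open Run7.h876.EN
open Run7.h876.HY (one_le_nv zeta_ne hasProd_zpow' partialZeta partialZeta_eq ell_diff ell_real)

/-- Local data: the coefficients of the logarithms of the Euler factors as functions of the residues. -/
structure Loc (K : Type) [Field K] [NumberField K] (J : Type) where
  h : ℝ
  D : ℝ
  a : ∀ v : HeightOneSpectrum (𝓞 K), (J → kv v) → ℕ → ℝ
  D_nonneg : 0 ≤ D
  bound : ∀ v t m, |a v t m| ≤ D * ((nv v : ℝ) ^ h) ^ (m + 1)

section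
variable {K : Type} [Field K] [NumberField K] {J : Type} [Fintype J] [DecidableEq J] (A : Loc K J)
variable {L : Type} [Fintype L] (e f : L → ℕ)

/-- the Euler factor -/
noncomputable def ef (v : HeightOneSpectrum (𝓞 K)) (t : J → kv v) (s : ℂ) : ℂ :=
  Complex.exp (ell (fun m => (A.a v t m : ℂ)) (xv v s))

/-- the argument of the zeta factors -/
noncomputable def za (v : HeightOneSpectrum (𝓞 K)) (s : ℂ) (l : L) : ℂ :=
  ((nv v : ℝ) : ℂ) ^ (e l) * (xv v s) ^ (f l)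

/-- the exponent of the normalised local factor -/
noncomputable def ex (k : ℂ) (c : L → ℂ) (v : HeightOneSpectrum (𝓞 K)) (s : ℂ) (t : J → kv v) : ℂ :=
  k * ell (fun m => (A.a v t m : ℂ)) (xv v s) - ∑ l, c l * ell (fun _ => 1) (za e f v s l)

/-- the normalised local mean -/
noncomputable def hv (k : ℂ) (c : L → ℂ) (v : HeightOneSpectrum (𝓞 K)) (s : ℂ) : ℂ :=
  avg Finset.univ (fun t => Complex.exp (ex A e f k c v s t))

/-- the limit function -/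
noncomputable def GG (k : ℂ) (c : L → ℂ) (s : ℂ) : ℂ := ∏' v : HeightOneSpectrum (𝓞 K), hv A e f k c v s

/-- `σ₀` is an admissible abscissa. -/
def Adm (σ₀ : ℝ) : Prop := A.h ≤ σ₀ ∧ ∀ l, 1 ≤ f l ∧ (e l : ℝ) ≤ σ₀ * f l

variable {A e f}
variable {σ₀ : ℝ}

theorem y0_lt' {σ : ℝ} (hσ : σ₀ < σ) : (2 : ℝ) ^ (σ₀ - σ) < 1 :=
  Real.rpow_lt_one_of_one_lt_of_neg (by norm_num) (by linarith)

theorem y0_pos {σ : ℝ} : 0 < (2 : ℝ) ^ (σ₀ - σ) := by positivity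

theorem nvh_xv (A : Loc K J) (v : HeightOneSpectrum (𝓞 K)) (s : ℂ) : (nv v : ℝ) ^ A.h * ‖xv v s‖ = (nv v : ℝ) ^ (A.h - s.re) := by
  rw [norm_xv, ← Real.rpow_add (nv_pos v)]
  congr 1

theorem y_le' (hA : Adm A e f σ₀) {σ : ℝ} (hσ : σ₀ < σ) (v : HeightOneSpectrum (𝓞 K)) {s : ℂ} (hs : σ ≤ s.re) :
    (nv v : ℝ) ^ A.h * ‖xv v s‖ ≤ 2 ^ (σ₀ - σ) := by
  have h2 : (2 : ℝ) ≤ nv v := by exact_mod_cast two_le_nv v
  have h3 := hA.1
  rw [nvh_xv]
  calc (nv v : ℝ) ^ (A.h - s.re) ≤ 2 ^ (A.h - s.re) := Real.rpow_le_rpow_of_nonpos (by norm_num) h2 (by linarith)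
    _ ≤ 2 ^ (σ₀ - σ) := Real.rpow_le_rpow_of_exponent_le (by norm_num) (by linarith)

theorem norm_za (v : HeightOneSpectrum (𝓞 K)) (s : ℂ) (l : L) :
    ‖za e f v s l‖ = (nv v : ℝ) ^ ((e l : ℝ) - f l * s.re) := by
  unfold za
  rw [norm_mul, norm_pow, norm_pow, Complex.norm_real, Real.norm_of_nonneg (nv_pos v).le, norm_xv,
    ← Real.rpow_natCast, ← Real.rpow_natCast, ← Real.rpow_mul (nv_pos v).le, ← Real.rpow_add (nv_pos v)]
  congr 1
  ring

theorem za_le (hA : Adm A e f σ₀) {σ : ℝ} (hσ : σ₀ < σ) (v : HeightOneSpectrum (𝓞 K)) {s : ℂ} (hs : σ ≤ s.re) (l : L) :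
    1 * ‖za e f v s l‖ ≤ 2 ^ (σ₀ - σ) := by
  have h2 : (2 : ℝ) ≤ nv v := by exact_mod_cast two_le_nv v
  obtain ⟨h3, h4⟩ := hA.2 l
  have h5 : (1 : ℝ) ≤ f l := by exact_mod_cast h3
  have h6 : (e l : ℝ) - f l * s.re ≤ σ₀ - σ := by nlinarith
  rw [one_mul, norm_za]
  calc (nv v : ℝ) ^ ((e l : ℝ) - f l * s.re) ≤ (nv v : ℝ) ^ (σ₀ - σ) := Real.rpow_le_rpow_of_exponent_le (by linarith) h6
    _ ≤ 2 ^ (σ₀ - σ) := Real.rpow_le_rpow_of_nonpos (by norm_num) h2 (by linarith)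

theorem a_bound (A : Loc K J) (v : HeightOneSpectrum (𝓞 K)) (t : J → kv v) (m : ℕ) :
    ‖(A.a v t m : ℂ)‖ ≤ A.D * ((nv v : ℝ) ^ A.h) ^ (m + 1) := by
  rw [Complex.norm_real]
  exact A.bound v t m

/-- the bound of the exponents -/
noncomputable def EB (A : Loc K J) (σ₀ σ : ℝ) (k : ℂ) (c : L → ℂ) : ℝ :=
  (‖k‖ * A.D + ∑ l, ‖c l‖) * (1 - 2 ^ (σ₀ - σ))⁻¹

theorem EB_nonneg {σ : ℝ} (hσ : σ₀ < σ) (k : ℂ) (c : L → ℂ) : 0 ≤ EB A σ₀ σ k c := by
  have := A.D_nonneg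
  have h2 := y0_lt' (σ₀ := σ₀) hσ
  have : 0 < (1 - (2 : ℝ) ^ (σ₀ - σ))⁻¹ := inv_pos.2 (by linarith)
  unfold EB
  positivity

theorem ex_le (hA : Adm A e f σ₀) {σ : ℝ} (hσ : σ₀ < σ) (k : ℂ) (c : L → ℂ) (v : HeightOneSpectrum (𝓞 K)) {s : ℂ}
    (hs : σ ≤ s.re) (t : J → kv v) : ‖ex A e f k c v s t‖ ≤ EB A σ₀ σ k c := by
  have hD := A.D_nonneg
  have h2 := y0_lt' (σ₀ := σ₀) hσ
  have h2p : 0 < (2 : ℝ) ^ (σ₀ - σ) := y0_pos
  have hQ : (0 : ℝ) ≤ (nv v : ℝ) ^ A.h := by have := (nv_pos v).le; positivity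
  have hy := y_le' hA hσ v hs
  have h3 := ell_le hD hQ (a_bound A v t) hy h2
  set y₀ : ℝ := 2 ^ (σ₀ - σ) with hy₀
  have hw : 0 < (1 - y₀)⁻¹ := inv_pos.2 (by linarith)
  have h4 : ‖ell (fun m => (A.a v t m : ℂ)) (xv v s)‖ ≤ A.D * (1 - y₀)⁻¹ := by
    refine h3.trans ?_
    rw [div_eq_mul_inv]
    have : A.D * ((nv v : ℝ) ^ A.h * ‖xv v s‖) ≤ A.D := mul_le_of_le_one_right hD (by linarith)
    gcongr
  have h5 : ∀ l, ‖ell (fun _ => 1) (za e f v s l)‖ ≤ (1 - y₀)⁻¹ := by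
    intro l
    have h6 := ell_le (a := fun _ => (1 : ℂ)) (D := 1) (Q := 1) zero_le_one zero_le_one one_bound (za_le hA hσ v hs l) h2
    refine h6.trans ?_
    rw [div_eq_mul_inv]
    have := za_le hA hσ v hs l
    exact mul_le_of_le_one_left hw.le (by linarith)
  unfold ex EB
  rw [← hy₀, add_mul]
  refine (norm_sub_le _ _).trans (add_le_add ?_ ?_)
  · rw [norm_mul, mul_assoc]
    gcongr
  · refine (norm_sum_le _ _).trans ?_
    rw [Finset.sum_mul]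
    refine Finset.sum_le_sum fun l _ => ?_
    rw [norm_mul]
    exact mul_le_mul_of_nonneg_left (h5 l) (norm_nonneg _)

theorem exp_ex_le (hA : Adm A e f σ₀) {σ : ℝ} (hσ : σ₀ < σ) (k : ℂ) (c : L → ℂ) (v : HeightOneSpectrum (𝓞 K)) {s : ℂ}
    (hs : σ ≤ s.re) (t : J → kv v) : ‖Complex.exp (ex A e f k c v s t)‖ ≤ Real.exp (EB A σ₀ σ k c) := by
  rw [Complex.norm_exp]
  exact Real.exp_le_exp.2 (((Complex.re_le_norm _)).trans (ex_le hA hσ k c v hs t))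

/-- The hypothesis: local means are close to one. -/
def Maj (A : Loc K J) (e f : L → ℕ) (σ₀ : ℝ) (k : ℂ) (c : L → ℂ) : Prop :=
  ∀ σ : ℝ, σ₀ < σ → ∃ u : HeightOneSpectrum (𝓞 K) → ℝ, Summable u ∧
    ∀ (v : HeightOneSpectrum (𝓞 K)) (s : ℂ), σ ≤ s.re → ‖hv A e f k c v s - 1‖ ≤ u v

open Classical in
/-- It is sufficient to estimate the local means outside of a finite set of places. -/
theorem maj_of (hA : Adm A e f σ₀) (k : ℂ) (c : L → ℂ) (Bd : Set (HeightOneSpectrum (𝓞 K))) (hBd : Bd.Finite)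
    (h : ∀ σ : ℝ, σ₀ < σ → ∃ u : HeightOneSpectrum (𝓞 K) → ℝ, Summable u ∧
    ∀ (v : HeightOneSpectrum (𝓞 K)), v ∉ Bd → ∀ s : ℂ, σ ≤ s.re → ‖hv A e f k c v s - 1‖ ≤ u v) :
    Maj A e f σ₀ k c := by
  intro σ hσ
  obtain ⟨u, hu, hub⟩ := h σ hσ
  set D : ℝ := Real.exp (EB A σ₀ σ k c) + 1 with hD
  have hD0 : 0 ≤ D := by positivity
  refine ⟨fun v => |u v| + (if v ∈ Bd then D else 0), hu.abs.add ?_, fun v s hs => ?_⟩
  · refine summable_of_hasFiniteSupport (hBd.subset fun v hv => ?_)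
    by_contra hc
    apply hv
    exact if_neg hc
  · by_cases hv : v ∈ Bd
    · simp only [if_pos hv]
      have h1 : ‖avg Finset.univ (fun t => Complex.exp (ex A e f k c v s t)) - 1‖ ≤ D := by
        refine (norm_sub_le _ _).trans ?_
        rw [norm_one, hD]
        refine add_le_add_left ?_ _
        exact norm_avg_le _ _ _ (Real.exp_pos _).le fun t _ => exp_ex_le hA hσ k c v hs t
      have h2 := abs_nonneg (u v)
      unfold Run7.h876.GN.hv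
      linarith
    · simp only [if_neg hv, add_zero]
      exact (hub v hv s hs).trans (le_abs_self _)

/-! ### holomorphy -/

theorem ex_diff (hA : Adm A e f σ₀) {σ : ℝ} (hσ : σ₀ < σ) (k : ℂ) (c : L → ℂ) (v : HeightOneSpectrum (𝓞 K)) (t : J → kv v)
    {s : ℂ} (hs : σ ≤ s.re) : DifferentiableAt ℂ (fun s => ex A e f k c v s t) s := by
  have hx := Run7.h876.MM.xv_diff v s
  have hQ : (0 : ℝ) ≤ (nv v : ℝ) ^ A.h := by have := (nv_pos v).le; positivity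
  have d1 : DifferentiableAt ℂ (fun s => ell (fun m => (A.a v t m : ℂ)) (xv v s)) s :=
    (ell_diff A.D_nonneg hQ (a_bound A v t) ((y_le' hA hσ v hs).trans_lt (y0_lt' hσ))).comp s hx
  have d3 : ∀ l, DifferentiableAt ℂ (fun s => ell (fun _ => 1) (za e f v s l)) s := by
    intro l
    refine DifferentiableAt.comp (f := fun s => za e f v s l) (g := ell (fun _ => 1)) s
      (ell_diff (a := fun _ => (1 : ℂ)) zero_le_one zero_le_one one_bound ((za_le hA hσ v hs l).trans_lt (y0_lt' hσ))) ?_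
    unfold za
    fun_prop
  unfold ex
  exact (d1.const_mul _).sub (DifferentiableAt.fun_sum fun l _ => (d3 l).const_mul _)

theorem hv_diff (hA : Adm A e f σ₀) {σ : ℝ} (hσ : σ₀ < σ) (k : ℂ) (c : L → ℂ) (v : HeightOneSpectrum (𝓞 K)) {s : ℂ}
    (hs : σ ≤ s.re) : DifferentiableAt ℂ (hv A e f k c v) s := by
  unfold hv avg
  exact (DifferentiableAt.fun_sum fun t _ => (ex_diff hA hσ k c v t hs).cexp).div_const _

theorem GG_diff (hA : Adm A e f σ₀) {k : ℂ} {c : L → ℂ} (hM : Maj A e f σ₀ k c) :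
    DifferentiableOn ℂ (GG A e f k c) {s | σ₀ < s.re} := by
  classical
  intro s₀ hs₀
  have hs₀' : σ₀ < s₀.re := hs₀
  set σ : ℝ := (σ₀ + s₀.re) / 2 with hσ
  have hσ1 : σ₀ < σ := by rw [hσ]; linarith
  have hσ2 : σ < s₀.re := by rw [hσ]; linarith
  obtain ⟨u, hu, hub⟩ := hM σ hσ1
  have hopen : IsOpen {s : ℂ | σ < s.re} := isOpen_lt continuous_const Complex.continuous_re
  have hT : TendstoUniformlyOn (fun (F : Finset (HeightOneSpectrum (𝓞 K))) s => ∏ v ∈ F, hv A e f k c v s) (GG A e f k c) atTop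
      {s : ℂ | σ < s.re} := by
    rw [Metric.tendstoUniformlyOn_iff]
    intro ε hε
    obtain ⟨S, hS⟩ := tail_small hu hε
    filter_upwards [Filter.eventually_ge_atTop S] with F hF s hs
    rw [dist_eq_norm]
    have hs' : σ < s.re := hs
    exact (tail_bound hu (fun v => hub v s hs'.le) F).trans_lt (hS F hF)
  have hd := hT.tendstoLocallyUniformlyOn.differentiableOn (Filter.Eventually.of_forall fun F s hs => by
    have hs' : σ < s.re := hs
    exact (DifferentiableAt.fun_finsetProd fun v _ => hv_diff hA hσ1 k c v hs'.le).differentiableWithinAt) hopen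
  exact ((hd s₀ hσ2).differentiableAt (hopen.mem_nhds hσ2)).differentiableWithinAt

/-! ### positivity -/

theorem ex_real (k x : ℝ) (c : L → ℝ) (v : HeightOneSpectrum (𝓞 K)) (t : J → kv v) :
    ∃ r : ℝ, ex A e f k (fun l => (c l : ℂ)) v x t = (r : ℂ) := by
  obtain ⟨r1, h1⟩ := ell_real (fun m => A.a v t m) ((nv v : ℝ) ^ (-x))
  choose r2 h2 using fun l : L => ell_real (fun _ => 1) ((nv v : ℝ) ^ (e l) * ((nv v : ℝ) ^ (-x)) ^ (f l))
  refine ⟨k * r1 - ∑ l, c l * r2 l, ?_⟩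
  have e2 : (fun _ : ℕ => (1 : ℂ)) = fun _ => ((1 : ℝ) : ℂ) := by simp
  have e3 : ∀ l, za e f v (x : ℂ) l = (((nv v : ℝ) ^ (e l) * ((nv v : ℝ) ^ (-x)) ^ (f l) : ℝ) : ℂ) := by
    intro l
    unfold za
    rw [xv_real]
    push_cast
    rfl
  unfold ex
  rw [xv_real, h1]
  simp only [e3, e2, h2]
  push_cast
  rfl

theorem hv_real (k x : ℝ) (c : L → ℝ) (v : HeightOneSpectrum (𝓞 K)) :
    ∃ r : ℝ, 0 < r ∧ hv A e f k (fun l => (c l : ℂ)) v (x : ℂ) = (r : ℂ) := by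
  choose r hr using fun t => ex_real (A := A) (e := e) (f := f) k x c v t
  refine ⟨(∑ t, Real.exp (r t)) / (Fintype.card (J → kv v)), ?_, ?_⟩
  · have h1 : 0 < ∑ t, Real.exp (r t) := Finset.sum_pos (fun t _ => Real.exp_pos _) ⟨fun _ => 0, Finset.mem_univ _⟩
    have h2 : (0 : ℝ) < Fintype.card (J → kv v) := by exact_mod_cast Fintype.card_pos
    positivity
  · unfold hv avg
    simp only [hr]
    rw [Finset.card_univ]
    push_cast
    rfl

theorem GG_real {k : ℝ} {c : L → ℝ} (hM : Maj A e f σ₀ k (fun l => (c l : ℂ))) {x : ℝ} (hx : σ₀ < x) :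
    ∃ r : ℝ, 0 < r ∧ GG A e f k (fun l => (c l : ℂ)) (x : ℂ) = (r : ℂ) := by
  obtain ⟨u, hu, hub⟩ := hM x hx
  have hb : ∀ v, ‖hv A e f k (fun l => (c l : ℂ)) v (x : ℂ) - 1‖ ≤ u v := fun v => hub v _ (by simp)
  have h1 := (mult_of hu hb).hasProd
  choose r hr hr2 using fun v => hv_real (A := A) (e := e) (f := f) k x c v
  have hne : GG A e f k (fun l => (c l : ℂ)) (x : ℂ) ≠ 0 := tprod_ne hu hb fun v => by
    rw [hr2 v]; exact_mod_cast (hr v).ne'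
  have hprod : ∀ F : Finset (HeightOneSpectrum (𝓞 K)), ∏ v ∈ F, hv A e f k (fun l => (c l : ℂ)) v (x : ℂ) = ((∏ v ∈ F, r v : ℝ) : ℂ) := by
    intro F
    rw [Finset.prod_congr rfl fun v _ => hr2 v]
    push_cast; rfl
  have hre : Tendsto (fun F : Finset (HeightOneSpectrum (𝓞 K)) => (∏ v ∈ F, r v : ℝ)) atTop
      (𝓝 (GG A e f k (fun l => (c l : ℂ)) (x : ℂ)).re) := by
    have := (Complex.continuous_re.tendsto _).comp h1
    refine this.congr fun F => ?_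
    simp only [Function.comp_apply, hprod, Complex.ofReal_re]
  have him : Tendsto (fun _ : Finset (HeightOneSpectrum (𝓞 K)) => (0 : ℝ)) atTop
      (𝓝 (GG A e f k (fun l => (c l : ℂ)) (x : ℂ)).im) := by
    have := (Complex.continuous_im.tendsto _).comp h1
    refine this.congr fun F => ?_
    simp only [Function.comp_apply, hprod, Complex.ofReal_im]
  have him0 : (GG A e f k (fun l => (c l : ℂ)) (x : ℂ)).im = 0 := tendsto_nhds_unique him tendsto_const_nhds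
  have hre0 : 0 ≤ (GG A e f k (fun l => (c l : ℂ)) (x : ℂ)).re := ge_of_tendsto' hre fun F => (Finset.prod_pos fun v _ => hr v).le
  have he : GG A e f k (fun l => (c l : ℂ)) (x : ℂ) = ((GG A e f k (fun l => (c l : ℂ)) (x : ℂ)).re : ℂ) := by
    apply Complex.ext
    · simp
    · simp [him0]
  refine ⟨(GG A e f k (fun l => (c l : ℂ)) (x : ℂ)).re, lt_of_le_of_ne hre0 fun h => hne ?_, he⟩
  rw [he, ← h]; simp

/-! ### the region of convergence -/

/-- the majorant in the region of convergence -/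
noncomputable def u1 (A : Loc K J) (n : ℂ) (σ : ℝ) (v : HeightOneSpectrum (𝓞 K)) : ℝ :=
  (‖n‖ * A.D * (1 - 2 ^ (A.h - σ))⁻¹) *
    Real.exp (‖n‖ * A.D * (1 - 2 ^ (A.h - σ))⁻¹) * (nv v : ℝ) ^ (A.h - σ)

theorem u1_summable (A : Loc K J) (n : ℂ) {σ : ℝ} (hσ : A.h + 1 < σ) :
    Summable (u1 A n σ : HeightOneSpectrum (𝓞 K) → ℝ) := by
  unfold u1
  have h := (Pool.Agent.H921R2.TatePole.nm_summable (K := K) (x := σ - A.h) (by linarith)).mul_left
    ((‖n‖ * A.D * (1 - 2 ^ (A.h - σ))⁻¹) *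
    Real.exp (‖n‖ * A.D * (1 - 2 ^ (A.h - σ))⁻¹))
  refine h.congr fun v => ?_
  rw [Run7.h876.MM.nv_eq]
  congr 2
  ring

theorem exp_u1 (A : Loc K J) (n : ℂ) {σ : ℝ} (hσ : A.h < σ) (v : HeightOneSpectrum (𝓞 K)) {s : ℂ} (hs : σ ≤ s.re)
    (t : J → kv v) : ‖Complex.exp (n * ell (fun m => (A.a v t m : ℂ)) (xv v s)) - 1‖ ≤ u1 A n σ v := by
  have hD := A.D_nonneg
  have hnv := nv_pos v
  have h2nv : (2 : ℝ) ≤ nv v := by exact_mod_cast two_le_nv v
  have h2 : (2 : ℝ) ^ (A.h - σ) < 1 := Real.rpow_lt_one_of_one_lt_of_neg (by norm_num) (by linarith)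
  have hQ : (0 : ℝ) ≤ (nv v : ℝ) ^ A.h := by have := hnv.le; positivity
  have hw : 0 < (1 - (2 : ℝ) ^ (A.h - σ))⁻¹ := inv_pos.2 (by linarith)
  have hyle : (nv v : ℝ) ^ A.h * ‖xv v s‖ ≤ (nv v : ℝ) ^ (A.h - σ) := by
    rw [nvh_xv]
    exact Real.rpow_le_rpow_of_exponent_le (by linarith) (by linarith)
  have hy2 : (nv v : ℝ) ^ (A.h - σ) ≤ 2 ^ (A.h - σ) := Real.rpow_le_rpow_of_nonpos (by norm_num) h2nv (by linarith)
  have h1 := ell_le hD hQ (a_bound A v t) (hyle.trans hy2) h2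
  set B := ‖n‖ * A.D * (1 - (2 : ℝ) ^ (A.h - σ))⁻¹ with hB
  have hB0 : 0 ≤ B := by positivity
  set y := (nv v : ℝ) ^ A.h * ‖xv v s‖ with hy
  have hy1 : y ≤ 1 := by linarith
  have h3 : ‖n * ell (fun m => (A.a v t m : ℂ)) (xv v s)‖ ≤ B * y := by
    rw [norm_mul]
    calc ‖n‖ * ‖ell (fun m => (A.a v t m : ℂ)) (xv v s)‖ ≤ ‖n‖ * (A.D * y / (1 - 2 ^ (A.h - σ))) := by gcongr
      _ = B * y := by rw [hB, div_eq_mul_inv]; ring
  have h4 : ‖n * ell (fun m => (A.a v t m : ℂ)) (xv v s)‖ ≤ B := h3.trans (mul_le_of_le_one_right hB0 hy1)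
  have h5 := Complex.norm_exp_sub_sum_le_norm_mul_exp (n * ell (fun m => (A.a v t m : ℂ)) (xv v s)) 1
  simp only [Finset.sum_range_one, pow_zero, Nat.factorial_zero, Nat.cast_one, div_one, pow_one] at h5
  refine h5.trans ?_
  unfold u1
  rw [← hB]
  calc ‖n * ell (fun m => (A.a v t m : ℂ)) (xv v s)‖ * Real.exp ‖n * ell (fun m => (A.a v t m : ℂ)) (xv v s)‖
      ≤ (B * y) * Real.exp B := by gcongr
    _ ≤ (B * (nv v : ℝ) ^ (A.h - σ)) * Real.exp B := by gcongr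
    _ = _ := by ring

/-- the Euler product -/
noncomputable def LL (A : Loc K J) (t : J → 𝓞 K) (s : ℂ) : ℂ := ∏' v : HeightOneSpectrum (𝓞 K), ef A v (rd v t) s

theorem LL_zpow (A : Loc K J) (k : ℤ) {σ : ℝ} (hσ : A.h + 1 < σ) {s : ℂ} (hs : σ ≤ s.re) (t : J → 𝓞 K) :
    LL A t s ^ k = ∏' v : HeightOneSpectrum (𝓞 K), Complex.exp (k * ell (fun m => (A.a v (rd v t) m : ℂ)) (xv v s)) := by
  have h := tprod_zpow' (g := fun v => ef A v (rd v t) s) (u1_summable A 1 hσ) (fun v => by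
    have := exp_u1 A 1 (by linarith : A.h < σ) v hs (rd v t)
    rwa [one_mul] at this) (fun v => Complex.exp_ne_zero _) k
  unfold LL
  rw [h]
  exact tprod_congr fun v => (Complex.exp_int_mul _ _).symm

theorem za_eq (v : HeightOneSpectrum (𝓞 K)) (s : ℂ) (l : L) : za e f v s l = (nv v : ℂ) ^ (-((f l : ℂ) * s - e l)) := by
  have h : (nv v : ℂ) ≠ 0 := by exact_mod_cast (nv_pos v).ne'
  unfold za xv
  have e1 : -((f l : ℂ) * s - e l) = (e l : ℂ) + (f l : ℂ) * (-s) := by ring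
  rw [e1, Complex.cpow_add _ _ h, Complex.cpow_natCast, Complex.cpow_nat_mul]
  push_cast
  rfl

/-- The normalised power in terms of the Euler factors. -/
theorem exp_ex_eq (hA : Adm A e f σ₀) (k : ℤ) (c : L → ℤ) {s : ℂ} (hs : σ₀ < s.re)
    (v : HeightOneSpectrum (𝓞 K)) (t : J → kv v) :
    Complex.exp (ex A e f k (fun l => (c l : ℂ)) v s t) = Complex.exp (k * ell (fun m => (A.a v t m : ℂ)) (xv v s)) *
      ∏ l, (((1 - (nv v : ℂ) ^ (-((f l : ℂ) * s - e l)))⁻¹) ^ (c l))⁻¹ := by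
  unfold ex
  rw [sub_eq_add_neg, Complex.exp_add, ← Finset.sum_neg_distrib, Complex.exp_sum]
  congr 1
  refine Finset.prod_congr rfl fun l _ => ?_
  have h1 : ‖za e f v s l‖ < 1 := by
    have := (za_le hA hs v le_rfl l).trans_lt (y0_lt' hs)
    rwa [one_mul] at this
  rw [Complex.exp_neg, Complex.exp_int_mul, exp_ell_one h1, za_eq]

theorem mv_eq (hA : Adm A e f σ₀) (k : ℤ) (c : L → ℤ) {s : ℂ} (hs : σ₀ < s.re) (v : HeightOneSpectrum (𝓞 K)) :
    avg Finset.univ (fun t : J → kv v => Complex.exp (k * ell (fun m => (A.a v t m : ℂ)) (xv v s))) =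
      (∏ l, ((1 - (nv v : ℂ) ^ (-((f l : ℂ) * s - e l)))⁻¹) ^ (c l)) * hv A e f k (fun l => (c l : ℂ)) v s := by
  have hne : (∏ l, ((1 - (nv v : ℂ) ^ (-((f l : ℂ) * s - e l)))⁻¹) ^ (c l)) ≠ 0 := by
    refine Finset.prod_ne_zero_iff.2 fun l _ => zpow_ne_zero _ ?_
    have h1 : ‖za e f v s l‖ < 1 := by
      have := (za_le hA hs v le_rfl l).trans_lt (y0_lt' hs)
      rwa [one_mul] at this
    rw [← za_eq, ← exp_ell_one h1]
    exact Complex.exp_ne_zero _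
  unfold hv
  rw [show (fun t : J → kv v => Complex.exp (ex A e f k (fun l => (c l : ℂ)) v s t)) = fun t =>
      Complex.exp (k * ell (fun m => (A.a v t m : ℂ)) (xv v s)) *
      (∏ l, ((1 - (nv v : ℂ) ^ (-((f l : ℂ) * s - e l)))⁻¹) ^ (c l))⁻¹ from by
    funext t
    rw [exp_ex_eq hA k c hs, Finset.prod_inv_distrib]]
  unfold avg
  rw [← Finset.sum_mul]
  generalize (∏ l, ((1 - (nv v : ℂ) ^ (-((f l : ℂ) * s - e l)))⁻¹) ^ (c l)) = B at hne ⊢
  field_simp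

theorem tprod_mv (hA : Adm A e f σ₀) {k : ℤ} {c : L → ℤ} (hM : Maj A e f σ₀ k (fun l => (c l : ℂ))) {s : ℂ} (hs : σ₀ < s.re)
    (hs2 : ∀ l, 1 < f l * s.re - e l) :
    ∏' v : HeightOneSpectrum (𝓞 K), avg Finset.univ (fun t : J → kv v => Complex.exp (k * ell (fun m => (A.a v t m : ℂ)) (xv v s))) =
      (∏ l, dedekindZeta K (f l * s - e l) ^ (c l)) * GG A e f k (fun l => (c l : ℂ)) s := by
  have hre : ∀ l, 1 < ((f l : ℂ) * s - e l).re := by
    intro l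
    have := hs2 l
    simpa using this
  have h1 : ∀ l, HasProd (fun v : HeightOneSpectrum (𝓞 K) => ((1 - (nv v : ℂ) ^ (-((f l : ℂ) * s - e l)))⁻¹) ^ (c l))
      (dedekindZeta K ((f l : ℂ) * s - e l) ^ (c l)) := fun l =>
    hasProd_zpow' (hasProd_zeta (K := K) (hre l)) (zeta_ne (hre l)) (c l)
  have h2 : HasProd (fun v : HeightOneSpectrum (𝓞 K) => ∏ l, ((1 - (nv v : ℂ) ^ (-((f l : ℂ) * s - e l)))⁻¹) ^ (c l))
      (∏ l, dedekindZeta K ((f l : ℂ) * s - e l) ^ (c l)) := hasProd_prod fun l _ => h1 l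
  obtain ⟨u, hu, hub⟩ := hM s.re hs
  have h4 := (mult_of hu (fun v => hub v s le_rfl)).hasProd
  have h5 := h2.mul h4
  refine HasProd.tprod_eq (h5.congr_fun fun v => ?_)
  rw [mv_eq hA k c hs v]

variable {ι : Type} [Fintype ι] [DecidableEq ι] (ω : Module.Basis ι ℤ (𝓞 K))

/-- **The moments in the region of convergence.** -/
theorem part1 (hA : Adm A e f σ₀) {k : ℤ} {c : L → ℤ} (hM : Maj A e f σ₀ k (fun l => (c l : ℂ)))
    {G : Set (J → 𝓞 K)} {Cb : ℝ} (hG : Thin ω G Cb) {σ : ℝ} (hσ : A.h + 1 < σ) (hσ0 : σ₀ < σ)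
    (hσ2 : ∀ l, 1 < f l * σ - e l) {ε : ℝ} (hε : 0 < ε) :
    ∃ M : ℕ, ∀ H : J → ℕ, (∀ j, M ≤ H j) → ∀ s : ℂ, σ ≤ s.re →
      ‖mean ω H G (fun t => LL A t s ^ k) - (∏ l, dedekindZeta K (f l * s - e l) ^ (c l)) *
        GG A e f k (fun l => (c l : ℂ)) s‖ ≤ ε := by
  obtain ⟨M, hM'⟩ := meanA (P := {s : ℂ // σ ≤ s.re}) ω hG (u1 A k σ) (u1_summable A k hσ)
    (fun v p t => Complex.exp (k * ell (fun m => (A.a v t m : ℂ)) (xv v p.1))) (fun v p t => exp_u1 A k (by linarith) v p.2 t) hε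
  refine ⟨M, fun H hH s hs => ?_⟩
  have h := hM' H hH ⟨s, hs⟩
  simp only at h
  rw [tprod_mv hA hM (hσ0.trans_le hs) (fun l => by
    have h1 := hσ2 l
    have h2 : (0 : ℝ) ≤ f l := by positivity
    have h3 := mul_le_mul_of_nonneg_left hs h2
    linarith)] at h
  have e1 : (fun t => LL A t s ^ k) =
      fun t => ∏' v : HeightOneSpectrum (𝓞 K), Complex.exp (k * ell (fun m => (A.a v (rd v t) m : ℂ)) (xv v s)) := by
    funext t
    exact LL_zpow A k hσ hs t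
  rw [e1]
  exact h

theorem mean_mul_const (H : J → ℕ) (G : Set (J → 𝓞 K)) (F : (J → 𝓞 K) → ℂ) (c : ℂ) :
    mean ω H G (fun t => F t * c) = mean ω H G F * c := by
  unfold mean
  rw [← Finset.sum_mul]
  ring

/-- **The moments of the partial Euler products past the edge of convergence.** -/
theorem part2 (hA : Adm A e f σ₀) {k : ℤ} {c : L → ℤ} (hM : Maj A e f σ₀ k (fun l => (c l : ℂ)))
    {G : Set (J → 𝓞 K)} {Cb : ℝ} (hCb : 0 ≤ Cb) (hG : Thin ω G Cb) {σ : ℝ} (hσ : σ₀ < σ) {θ : ℝ} (hθ : 0 < θ)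
    {ε : ℝ} (hε : 0 < ε) :
    ∃ Z₀ : ℕ, ∀ Z : ℕ, Z₀ ≤ Z → ∀ H : J → ℕ, (∀ j, Real.exp ((Z : ℝ) ^ (1 + θ)) ≤ H j) → ∀ s : ℂ, σ ≤ s.re →
      ‖mean ω H G (fun t => (∏ v ∈ SZ K Z, ef A v (rd v t) s) ^ k) * (∏ l, (partialZeta K Z (f l * s - e l) ^ (c l))⁻¹) -
        GG A e f k (fun l => (c l : ℂ)) s‖ ≤ ε := by
  obtain ⟨u, hu, hub⟩ := hM σ hσ
  obtain ⟨Z₀, hZ₀⟩ := meanB (P := {s : ℂ // σ ≤ s.re}) ω hCb hG u hu
    (fun v p t => Complex.exp (ex A e f k (fun l => (c l : ℂ)) v p.1 t)) (D := Real.exp (EB A σ₀ σ k (fun l => (c l : ℂ))))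
    (Real.one_le_exp (EB_nonneg hσ k _)) (fun v p t => exp_ex_le hA hσ k _ v p.2 t)
    (fun v p => hub v p.1 p.2) hθ hε
  refine ⟨Z₀, fun Z hZ H hH s hs => ?_⟩
  have h := hZ₀ Z hZ H hH ⟨s, hs⟩
  have e1 : (fun t : J → 𝓞 K => ∏ v ∈ SZ K Z, Complex.exp (ex A e f k (fun l => (c l : ℂ)) v s (rd v t))) =
      fun t => (∏ v ∈ SZ K Z, ef A v (rd v t) s) ^ k * (∏ l, (partialZeta K Z (f l * s - e l) ^ (c l))⁻¹) := by
    funext t
    have e2 : (∏ l, (partialZeta K Z (f l * s - e l) ^ (c l))⁻¹) =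
        ∏ v ∈ SZ K Z, ∏ l, (((1 - (nv v : ℂ) ^ (-((f l : ℂ) * s - e l)))⁻¹) ^ (c l))⁻¹ := by
      rw [Finset.prod_comm]
      refine Finset.prod_congr rfl fun l _ => ?_
      rw [partialZeta_eq, ← Finset.prod_zpow, ← Finset.prod_inv_distrib]
    rw [e2, ← Finset.prod_zpow, ← Finset.prod_mul_distrib]
    refine Finset.prod_congr rfl fun v _ => ?_
    rw [exp_ex_eq hA k c (hσ.trans_le hs), Complex.exp_int_mul]
    rfl
  simp only at h
  rw [e1, mean_mul_const] at h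
  exact h

end

end Run7.h876.GN
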