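import Pool.Agent.Run7.h876.GN.First

/-!
# Second order estimates of the local means
-/

set_option autoImplicit false
set_option linter.unusedSectionVars false

namespace Run7.h876.GN

open NumberField IsDedekindDomain Finset Filter Topology
open Run7.h876.MM (nv kv two_le_nv nv_pos avg card_kv xv norm_xv instFieldKv instFintypeKv instDecKv
  norm_avg_le avg_sub')
open Run7.h876.EN
open Run7.h876.HY (one_le_nv)

/-- **The local estimates**, with arbitrary errors of the moments. -/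
theorem local_est2 (R D r y₀ : ℝ) (hR : 0 ≤ R) (hD : 0 ≤ D) (hr : 0 ≤ r) (hy₀ : y₀ < 1) :
    ∃ C : ℝ, 0 ≤ C ∧ ∀ (k : ℂ), ‖k‖ ≤ R → ∀ (q : ℝ), 1 ≤ q → ∀ X : ℂ, Real.sqrt q * ‖X‖ ≤ y₀ →
      ∀ (η₁ η₂ : ℝ), 0 ≤ η₁ → 0 ≤ η₂ → ∀ (α : Type) [Fintype α] (_ : Nonempty α) (a : α → ℕ → ℂ),
      (∀ t m, ‖a t m‖ ≤ D * Real.sqrt q ^ (m + 1)) →
      ‖avg Finset.univ (fun t => a t 0) + r‖ ≤ η₁ →
      ‖avg Finset.univ (fun t => (a t 0 + r) ^ 2) - q‖ ≤ η₂ →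
      ‖avg Finset.univ (fun t => a t 1) + q‖ ≤ η₂ →
      ‖avg Finset.univ (fun t => Complex.exp (expo k r q (a t) X)) - 1‖ ≤
        C * (‖X‖ * η₁ + ‖X‖ ^ 2 * η₂ + ‖X‖ ^ 2 + (Real.sqrt q * ‖X‖) ^ 3) := by
  have hA₀ := A0_nonneg (y₀ := y₀) hR hD hr hy₀
  obtain ⟨A₀, hA₀d⟩ : ∃ A, A = A0 R D r y₀ := ⟨_, rfl⟩
  rw [← hA₀d] at hA₀
  obtain ⟨A₁, hA₁d⟩ : ∃ A, A = R * (D + r) := ⟨_, rfl⟩
  have hA₁ : 0 ≤ A₁ := by rw [hA₁d]; positivity
  obtain ⟨A₂, hA₂d⟩ : ∃ A, A = R * D / 2 + R * (R + 1) / 2 := ⟨_, rfl⟩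
  have hA₂ : 0 ≤ A₂ := by rw [hA₂d]; positivity
  obtain ⟨B, hBd⟩ : ∃ B, B = A₀ ^ 3 * Real.exp A₀ + A₂ * (A₁ + A₂) + A₀ * (1 + (A₁ + A₂ + A₀)) := ⟨_, rfl⟩
  have hB : 0 ≤ B := by rw [hBd]; positivity
  refine ⟨B + (R + R ^ 2), by positivity, fun k hk q hq X hX η₁ η₂ hη₁ hη₂ α _ _ a ha h1 h2 h3 => ?_⟩
  obtain ⟨Q, hQ⟩ : ∃ Q, Q = Real.sqrt q := ⟨_, rfl⟩
  rw [← hQ] at hX ⊢
  have hQ1 : 1 ≤ Q := by rw [hQ]; exact Real.one_le_sqrt.2 hq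
  have hQ0 : 0 < Q := by linarith
  have hQq : Q * Q = q := by rw [hQ]; exact Real.mul_self_sqrt (by linarith)
  obtain ⟨y, hy⟩ : ∃ y, y = Q * ‖X‖ := ⟨_, rfl⟩
  have hy0 : 0 ≤ y := by rw [hy]; positivity
  have hy1 : y ≤ 1 := by rw [hy]; linarith
  have hXy : ‖X‖ ≤ y := by rw [hy]; exact le_mul_of_one_le_left (norm_nonneg _) hQ1
  have hrn : ‖(r : ℂ)‖ = r := by rw [Complex.norm_real, Real.norm_of_nonneg hr]
  have h7 : ‖(2 : ℂ)‖ = 2 := by simp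
  have hpt : ∀ t, ‖Complex.exp (expo k r q (a t) X) - (1 + k * (a t 0 + r) * X +
      ((k * a t 1 / 2 - kp k * q) * X ^ 2 + (k * (a t 0 + r) * X) ^ 2 / 2))‖ ≤ B * (‖X‖ ^ 2 + y ^ 3) := by
    intro t
    have hat := ha t
    obtain ⟨e1, e2⟩ := expo_le hR hD hr hy₀ hk hq (by rw [← hQ]; exact hX) (a t) hat
    rw [← hQ] at hat
    rw [← hA₀d, ← hQ, ← hy] at e1 e2
    rw [hBd]
    refine exp_expand hA₀ hA₁ hA₂ (norm_nonneg _) (hXy.trans hy1) hy0 hy1 e1 e2 ?_ ?_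
    · rw [norm_mul, norm_mul]
      have h5 : ‖a t 0 + r‖ ≤ (D + r) * Q := by
        refine (norm_add_le _ _).trans ?_
        rw [hrn]
        have h6 := hat 0
        rw [zero_add, pow_one] at h6
        have h8 : r ≤ r * Q := le_mul_of_one_le_right hr hQ1
        have h9 : (D + r) * Q = D * Q + r * Q := by ring
        rw [h9]
        linarith
      calc ‖k‖ * ‖a t 0 + r‖ * ‖X‖ ≤ R * ((D + r) * Q) * ‖X‖ := by gcongr
        _ = A₁ * y := by rw [hA₁d, hy]; ring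
    · rw [norm_mul, norm_pow]
      have h5 : ‖k * a t 1 / 2 - kp k * q‖ ≤ A₂ * (Q * Q) := by
        refine (norm_sub_le _ _).trans ?_
        rw [norm_div, norm_mul, norm_mul, Complex.norm_real, Real.norm_of_nonneg (by linarith : 0 ≤ q)]
        have h6 := hat 1
        rw [h7]
        have h8 : ‖k‖ * ‖a t 1‖ ≤ R * (D * Q ^ (1 + 1)) := mul_le_mul hk h6 (norm_nonneg _) hR
        have h9 : ‖kp k‖ * q ≤ R * (R + 1) / 2 * q := mul_le_mul_of_nonneg_right (kp_le hk) (by linarith)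
        have h10 : A₂ * (Q * Q) = R * (D * Q ^ (1 + 1)) / 2 + R * (R + 1) / 2 * q := by rw [hA₂d, ← hQq]; ring
        rw [h10]
        exact add_le_add (div_le_div_of_nonneg_right h8 (by norm_num)) h9
      calc ‖k * a t 1 / 2 - kp k * q‖ * ‖X‖ ^ 2 ≤ A₂ * (Q * Q) * ‖X‖ ^ 2 := by gcongr
        _ = A₂ * y ^ 2 := by rw [hy]; ring
  have hmain := avg_main a k r q X
  obtain ⟨mA, hmA⟩ : ∃ z, z = avg Finset.univ (fun t => 1 + k * (a t 0 + r) * X +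
      ((k * a t 1 / 2 - kp k * q) * X ^ 2 + (k * (a t 0 + r) * X) ^ 2 / 2)) := ⟨_, rfl⟩
  rw [← hmA] at hmain
  have hfin : ‖mA - 1‖ ≤ R * (‖X‖ * η₁) + (R ^ 2 / 2 + R / 2) * (‖X‖ ^ 2 * η₂) := by
    rw [hmain]
    have f1 : ‖k * X * (avg Finset.univ (fun t => a t 0) + r)‖ ≤ R * (‖X‖ * η₁) := by
      rw [norm_mul, norm_mul]
      calc ‖k‖ * ‖X‖ * ‖avg Finset.univ (fun t => a t 0) + r‖ ≤ R * ‖X‖ * η₁ := by gcongr
        _ = _ := by ring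
    have f2 : ‖(k ^ 2 / 2 * (avg Finset.univ (fun t => (a t 0 + r) ^ 2) - q) +
        k / 2 * (avg Finset.univ (fun t => a t 1) + q)) * X ^ 2‖ ≤ (R ^ 2 / 2 + R / 2) * (‖X‖ ^ 2 * η₂) := by
      rw [norm_mul, norm_pow]
      have f3 : ‖k ^ 2 / 2 * (avg Finset.univ (fun t => (a t 0 + r) ^ 2) - q)‖ ≤ R ^ 2 / 2 * η₂ := by
        rw [norm_mul, norm_div, norm_pow, h7]
        gcongr
      have f4 : ‖k / 2 * (avg Finset.univ (fun t => a t 1) + q)‖ ≤ R / 2 * η₂ := by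
        rw [norm_mul, norm_div, h7]
        gcongr
      calc _ ≤ (R ^ 2 / 2 * η₂ + R / 2 * η₂) * ‖X‖ ^ 2 :=
            mul_le_mul_of_nonneg_right ((norm_add_le _ _).trans (add_le_add f3 f4)) (by positivity)
        _ = _ := by ring
    exact (norm_add_le _ _).trans (add_le_add f1 f2)
  have hdiff : ‖avg Finset.univ (fun t => Complex.exp (expo k r q (a t) X)) - mA‖ ≤ B * (‖X‖ ^ 2 + y ^ 3) := by
    rw [hmA, avg_sub']
    exact norm_avg_le _ _ _ (by positivity) fun t _ => hpt t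
  have e : avg Finset.univ (fun t => Complex.exp (expo k r q (a t) X)) - 1 =
      (avg Finset.univ (fun t => Complex.exp (expo k r q (a t) X)) - mA) + (mA - 1) := by ring
  rw [e]
  refine (norm_add_le _ _).trans ((add_le_add hdiff hfin).trans ?_)
  rw [← hy]
  have q2 : 0 ≤ ‖X‖ * η₁ := by positivity
  have q3 : 0 ≤ ‖X‖ ^ 2 * η₂ := by positivity
  have q4 : 0 ≤ y ^ 3 := by positivity
  have q5 : 0 ≤ ‖X‖ ^ 2 := by positivity
  have e5 : (B + (R + R ^ 2)) * (‖X‖ * η₁ + ‖X‖ ^ 2 * η₂ + ‖X‖ ^ 2 + y ^ 3) =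
      B * (‖X‖ ^ 2 + y ^ 3) + (R * (‖X‖ * η₁) + (R ^ 2 / 2 + R / 2) * (‖X‖ ^ 2 * η₂)) +
      (B * (‖X‖ * η₁ + ‖X‖ ^ 2 * η₂) + (R + R ^ 2) * (‖X‖ ^ 2 + y ^ 3) + R ^ 2 * (‖X‖ * η₁) +
        (R ^ 2 / 2 + R / 2) * (‖X‖ ^ 2 * η₂)) := by ring
  rw [e5]
  have q6 : 0 ≤ (B * (‖X‖ * η₁ + ‖X‖ ^ 2 * η₂) + (R + R ^ 2) * (‖X‖ ^ 2 + y ^ 3) + R ^ 2 * (‖X‖ * η₁) +
        (R ^ 2 / 2 + R / 2) * (‖X‖ ^ 2 * η₂)) := by positivity
  linarith

section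
variable {K : Type} [Field K] [NumberField K] {J : Type} [Fintype J] [DecidableEq J] (A : Loc K J)

/-- the zeta factors -/
def e2 (i : ℕ) : Fin 2 → ℕ := ![i, 2 * i + 1]

/-- the zeta factors -/
def f2 : Fin 2 → ℕ := ![1, 2]

theorem adm_second (i : ℕ) (hh : A.h = i + 1 / 2) : Adm A (e2 i) f2 ((i : ℝ) + 5 / 6) := by
  refine ⟨by rw [hh]; linarith, fun l => ?_⟩
  fin_cases l
  · refine ⟨le_rfl, ?_⟩
    show ((i : ℕ) : ℝ) ≤ ((i : ℝ) + 5 / 6) * ((1 : ℕ) : ℝ)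
    push_cast; linarith
  · refine ⟨by show 1 ≤ 2; norm_num, ?_⟩
    show ((2 * i + 1 : ℕ) : ℝ) ≤ ((i : ℝ) + 5 / 6) * ((2 : ℕ) : ℝ)
    push_cast; linarith

/-- rescaling -/
theorem ell_scale (a : ℕ → ℂ) {c : ℂ} (hc : c ≠ 0) (X : ℂ) : ell (fun m => a m / c ^ (m + 1)) (c * X) = ell a X := by
  unfold ell
  refine tsum_congr fun m => ?_
  rw [mul_pow]
  field_simp

/-- **Second order majorant.** -/
theorem maj_second (i : ℕ) (hh : A.h = i + 1 / 2) (k : ℂ) (r : ℝ) (hr : 0 ≤ r) (Bd : Set (HeightOneSpectrum (𝓞 K))) (hBd : Bd.Finite)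
    {C : ℝ} (hC : 0 ≤ C)
    (h1 : ∀ v, v ∉ Bd → ‖avg Finset.univ (fun t => (A.a v t 0 : ℂ)) + ((r * (nv v : ℝ) ^ i : ℝ) : ℂ)‖ ≤
      C * (nv v : ℝ) ^ ((i : ℝ) - 1 / 4))
    (h2 : ∀ v, v ∉ Bd → ‖avg Finset.univ (fun t => ((A.a v t 0 : ℂ) + ((r * (nv v : ℝ) ^ i : ℝ) : ℂ)) ^ 2) -
      (((nv v : ℝ) ^ (2 * i + 1) : ℝ) : ℂ)‖ ≤ C * (nv v : ℝ) ^ (2 * (i : ℝ) + 1 / 2))
    (h3 : ∀ v, v ∉ Bd → ‖avg Finset.univ (fun t => (A.a v t 1 : ℂ)) + (((nv v : ℝ) ^ (2 * i + 1) : ℝ) : ℂ)‖ ≤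
      C * (nv v : ℝ) ^ (2 * (i : ℝ) + 1 / 2)) :
    Maj A (e2 i) f2 ((i : ℝ) + 5 / 6) k ![-(k * r), kp k] := by
  have hA := adm_second A i hh
  refine maj_of hA k _ Bd hBd fun σ hσ => ?_
  set y₀ : ℝ := 2 ^ ((i : ℝ) + 1 / 2 - σ) with hy₀
  have hy₀1 : y₀ < 1 := Real.rpow_lt_one_of_one_lt_of_neg (by norm_num) (by linarith)
  obtain ⟨C', hC', hloc⟩ := local_est2 ‖k‖ A.D r y₀ (norm_nonneg _) A.D_nonneg hr hy₀1
  refine ⟨fun v => C' * (C * (nv v : ℝ) ^ (-(σ - i + 1 / 4)) + C * (nv v : ℝ) ^ (-(2 * (σ - i) - 1 / 2)) +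
    (nv v : ℝ) ^ (-(2 * (σ - i))) + (nv v : ℝ) ^ (-(3 * (σ - i) - 3 / 2))), ?_, ?_⟩
  · exact (((((Pool.Agent.H921R2.TatePole.nm_summable (K := K) (x := σ - i + 1 / 4) (by linarith)).mul_left C).add
      ((Pool.Agent.H921R2.TatePole.nm_summable (K := K) (x := 2 * (σ - i) - 1 / 2) (by linarith)).mul_left C)).add
      (Pool.Agent.H921R2.TatePole.nm_summable (K := K) (x := 2 * (σ - i)) (by linarith))).add
      (Pool.Agent.H921R2.TatePole.nm_summable (K := K) (x := 3 * (σ - i) - 3 / 2) (by linarith))).mul_left C'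
  · intro v hvB s hs
    have hnv := nv_pos v
    have h1nv := one_le_nv v
    obtain ⟨q, hq⟩ : ∃ q : ℝ, q = ((nv v : ℕ) : ℝ) := ⟨_, rfl⟩
    have g1 := h1 v hvB
    have g2 := h2 v hvB
    have g3 := h3 v hvB
    simp only
    rw [← hq] at hnv h1nv g1 g2 g3 ⊢
    set X := xv v s with hX
    set Q : ℝ := q ^ i with hQ
    have hQ0 : 0 < Q := by positivity
    have hQc : (Q : ℂ) ≠ 0 := by exact_mod_cast hQ0.ne'
    have hQr : Q = q ^ (i : ℝ) := (Real.rpow_natCast q i).symm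
    have hXn : ‖X‖ = q ^ (-s.re) := by rw [hX, norm_xv, hq]
    have hX' : ‖(Q : ℂ) * X‖ = q ^ ((i : ℝ) - s.re) := by
      rw [norm_mul, Complex.norm_real, Real.norm_of_nonneg hQ0.le, hXn, hQr, ← Real.rpow_add hnv]
      congr 1
    have hX'le : ‖(Q : ℂ) * X‖ ≤ q ^ (-(σ - i)) := by
      rw [hX']
      exact Real.rpow_le_rpow_of_exponent_le h1nv (by linarith)
    have hsq : Real.sqrt q * ‖(Q : ℂ) * X‖ ≤ y₀ := by
      rw [hX', Real.sqrt_eq_rpow, ← Real.rpow_add hnv, hy₀]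
      have h2nv : (2 : ℝ) ≤ q := by rw [hq]; exact_mod_cast two_le_nv v
      calc q ^ (1 / 2 + ((i : ℝ) - s.re)) ≤ 2 ^ (1 / 2 + ((i : ℝ) - s.re)) :=
            Real.rpow_le_rpow_of_nonpos (by norm_num) h2nv (by linarith)
        _ ≤ _ := Real.rpow_le_rpow_of_exponent_le (by norm_num) (by linarith)
    have hsq2 : Real.sqrt q * ‖(Q : ℂ) * X‖ ≤ q ^ (1 / 2 - (σ - i)) := by
      rw [Real.sqrt_eq_rpow]
      calc q ^ (1 / 2 : ℝ) * ‖(Q : ℂ) * X‖ ≤ q ^ (1 / 2 : ℝ) * q ^ (-(σ - i)) := by gcongr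
        _ = _ := by rw [← Real.rpow_add hnv]; congr 1
    -- the rescaled coefficients
    have key := hloc k le_rfl q h1nv ((Q : ℂ) * X) hsq (C * q ^ (-(1 / 4) : ℝ)) (C * q ^ (1 / 2 : ℝ)) (by positivity)
      (by positivity) (J → kv v) ⟨fun _ => 0⟩ (fun t m => (A.a v t m : ℂ) / (Q : ℂ) ^ (m + 1)) ?_ ?_ ?_ ?_
    · have e1 : ∀ t : J → kv v, ex A (e2 i) f2 k ![-(k * r), kp k] v s t =
          expo k r q (fun m => (A.a v t m : ℂ) / (Q : ℂ) ^ (m + 1)) ((Q : ℂ) * X) := by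
        intro t
        unfold ex expo
        rw [ell_scale _ hQc, Fin.sum_univ_two]
        have z0 : za (e2 i) f2 v s 0 = (Q : ℂ) * X := by
          show ((nv v : ℝ) : ℂ) ^ i * (xv v s) ^ 1 = _
          rw [pow_one, hQ, ← hX, ← hq]
          push_cast; rfl
        have z1 : za (e2 i) f2 v s 1 = (q : ℂ) * ((Q : ℂ) * X) ^ 2 := by
          show ((nv v : ℝ) : ℂ) ^ (2 * i + 1) * (xv v s) ^ 2 = _
          rw [hQ, ← hX, ← hq]
          push_cast; ring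
        rw [z0, z1]
        simp only [Matrix.cons_val_zero, Matrix.cons_val_one]
        ring
      unfold Run7.h876.GN.hv
      simp only [e1]
      refine key.trans ?_
      refine mul_le_mul_of_nonneg_left ?_ hC'
      refine add_le_add (add_le_add (add_le_add ?_ ?_) ?_) ?_
      · calc ‖(Q : ℂ) * X‖ * (C * q ^ (-(1 / 4) : ℝ)) ≤ q ^ (-(σ - i)) * (C * q ^ (-(1 / 4) : ℝ)) := by gcongr
          _ = C * (q ^ (-(σ - i)) * q ^ (-(1 / 4) : ℝ)) := by ring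
          _ = _ := by rw [← Real.rpow_add hnv]; congr 2; ring
      · calc ‖(Q : ℂ) * X‖ ^ 2 * (C * q ^ (1 / 2 : ℝ)) ≤ (q ^ (-(σ - i))) ^ 2 * (C * q ^ (1 / 2 : ℝ)) := by gcongr
          _ = C * ((q ^ (-(σ - i))) ^ 2 * q ^ (1 / 2 : ℝ)) := by ring
          _ = _ := by
            rw [← Real.rpow_natCast, ← Real.rpow_mul hnv.le, ← Real.rpow_add hnv]; congr 2; push_cast; ring
      · calc ‖(Q : ℂ) * X‖ ^ 2 ≤ (q ^ (-(σ - i))) ^ 2 := by gcongr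
          _ = _ := by rw [← Real.rpow_natCast, ← Real.rpow_mul hnv.le]; congr 1; push_cast; ring
      · calc (Real.sqrt q * ‖(Q : ℂ) * X‖) ^ 3 ≤ (q ^ (1 / 2 - (σ - i))) ^ 3 := by gcongr
          _ = _ := by rw [← Real.rpow_natCast, ← Real.rpow_mul hnv.le]; congr 1; push_cast; ring
    · intro t m
      rw [norm_div, norm_pow, Complex.norm_real, Complex.norm_real, Real.norm_of_nonneg hQ0.le, Real.norm_eq_abs]
      rw [div_le_iff₀ (by positivity)]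
      refine (A.bound v t m).trans (le_of_eq ?_)
      rw [mul_assoc, ← mul_pow, hh, ← hq, Real.sqrt_eq_rpow, hQr, ← Real.rpow_add hnv]
      congr 3
      ring
    · have e : avg Finset.univ (fun t : J → kv v => (A.a v t 0 : ℂ) / (Q : ℂ) ^ (0 + 1)) + r =
          (1 / (Q : ℂ)) * (avg Finset.univ (fun t => (A.a v t 0 : ℂ)) + ((r * q ^ i : ℝ) : ℂ)) := by
        have e3 : (fun t : J → kv v => (A.a v t 0 : ℂ) / (Q : ℂ) ^ (0 + 1)) = fun t => (1 / (Q : ℂ)) * (A.a v t 0 : ℂ) := by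
          funext t; rw [zero_add, pow_one]; ring
        rw [e3, avg_mul_const]
        rw [← hQ]
        push_cast
        field_simp
      rw [e, norm_mul, norm_div, norm_one, Complex.norm_real, Real.norm_of_nonneg hQ0.le]
      calc 1 / Q * _ ≤ 1 / Q * (C * q ^ ((i : ℝ) - 1 / 4)) := by gcongr
        _ = C * (q ^ ((i : ℝ) - 1 / 4) / q ^ (i : ℝ)) := by rw [← hQr]; ring
        _ = _ := by rw [← Real.rpow_sub hnv]; congr 2; ring
    · have e : avg Finset.univ (fun t : J → kv v => ((A.a v t 0 : ℂ) / (Q : ℂ) ^ (0 + 1) + r) ^ 2) - q =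
          (1 / (Q : ℂ) ^ 2) * (avg Finset.univ (fun t => ((A.a v t 0 : ℂ) + ((r * q ^ i : ℝ) : ℂ)) ^ 2) - ((q ^ (2 * i + 1) : ℝ) : ℂ)) := by
        have e3 : (fun t : J → kv v => ((A.a v t 0 : ℂ) / (Q : ℂ) ^ (0 + 1) + r) ^ 2) =
            fun t => (1 / (Q : ℂ) ^ 2) * ((A.a v t 0 : ℂ) + ((r * q ^ i : ℝ) : ℂ)) ^ 2 := by
          funext t
          rw [zero_add, pow_one, ← hQ]
          push_cast
          field_simp
        have e4 : ((q ^ (2 * i + 1) : ℝ) : ℂ) = q * (Q : ℂ) ^ 2 := by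
          rw [hQ]; push_cast; ring
        rw [e3, avg_mul_const, e4]
        field_simp
      rw [e, norm_mul, norm_div, norm_one, norm_pow, Complex.norm_real, Real.norm_of_nonneg hQ0.le]
      calc 1 / Q ^ 2 * _ ≤ 1 / Q ^ 2 * (C * q ^ (2 * (i : ℝ) + 1 / 2)) := by gcongr
        _ = C * (q ^ (2 * (i : ℝ) + 1 / 2) / (q ^ (i : ℝ)) ^ 2) := by rw [← hQr]; ring
        _ = _ := by
          rw [← Real.rpow_natCast (q ^ (i : ℝ)), ← Real.rpow_mul hnv.le, ← Real.rpow_sub hnv]; congr 2; push_cast; ring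
    · have e : avg Finset.univ (fun t : J → kv v => (A.a v t 1 : ℂ) / (Q : ℂ) ^ (1 + 1)) + q =
          (1 / (Q : ℂ) ^ 2) * (avg Finset.univ (fun t => (A.a v t 1 : ℂ)) + ((q ^ (2 * i + 1) : ℝ) : ℂ)) := by
        have e3 : (fun t : J → kv v => (A.a v t 1 : ℂ) / (Q : ℂ) ^ (1 + 1)) = fun t => (1 / (Q : ℂ) ^ 2) * (A.a v t 1 : ℂ) := by
          funext t; ring
        have e4 : ((q ^ (2 * i + 1) : ℝ) : ℂ) = q * (Q : ℂ) ^ 2 := by
          rw [hQ]; push_cast; ring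
        rw [e3, avg_mul_const, e4]
        field_simp
      rw [e, norm_mul, norm_div, norm_one, norm_pow, Complex.norm_real, Real.norm_of_nonneg hQ0.le]
      calc 1 / Q ^ 2 * _ ≤ 1 / Q ^ 2 * (C * q ^ (2 * (i : ℝ) + 1 / 2)) := by gcongr
        _ = C * (q ^ (2 * (i : ℝ) + 1 / 2) / (q ^ (i : ℝ)) ^ 2) := by rw [← hQr]; ring
        _ = _ := by
          rw [← Real.rpow_natCast (q ^ (i : ℝ)), ← Real.rpow_mul hnv.le, ← Real.rpow_sub hnv]; congr 2; push_cast; ring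

end

end Run7.h876.GN
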